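import Pool.Agent.Helper69.EK.Stm
import Pool.Graph.R_pool_sql_team_seeded_1e53cb71.Helper6K9.EH.Hom

set_option autoImplicit false

/-! # EK, part HOM: the homoclinic solution -/

namespace Pool.Agent.Helper69.EK

open Set Filter Topology Pool.Agent.Helper6K9.ES
open Pool.Agent.Helper6K9.EH (Prof Fam eX eY dst pt Tr mkFam Pv Shf S_PROF S_FLOW)
open Pool.Agent.Helper6K9.EH.HomL (th deriv_th plat)
open scoped ContDiff

theorem hom : S_HOM := by
  intro e j₀ h
  have hl := h.hl
  have hp := h.prof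
  choose H hH1 hH2 using fun t => Pool.Agent.Helper6K9.EH.HomL.surj hl hp t
  have hmono : StrictMono H := by
    intro s t hst
    by_contra hle
    have := (Pool.Agent.Helper6K9.EH.HomL.mono hl hp).monotoneOn (hH1 t) (hH1 s) (not_lt.1 hle)
    rw [hH2, hH2] at this
    linarith
  have hrange : range H = Ioo 0 1 := by
    apply Subset.antisymm
    · rintro _ ⟨t, rfl⟩
      exact hH1 t
    · intro y hy
      refine ⟨th e.l e.k y, ?_⟩
      exact (Pool.Agent.Helper6K9.EH.HomL.mono hl hp).injOn (hH1 _) hy (hH2 _)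
  have hcont : ∀ t, ContinuousAt H t := by
    intro t
    refine continuousAt_of_monotoneOn_of_image_mem_nhds (s := univ) (hmono.monotone.monotoneOn _)
      univ_mem ?_
    rw [image_univ, hrange]
    exact isOpen_Ioo.mem_nhds (hH1 t)
  refine ⟨H, ⟨?_, ?_, hmono, hH1, ?_, ?_⟩⟩
  · intro t
    have h1 := HasDerivAt.of_local_left_inverse (hcont t) (deriv_th hl hp (hH1 t))
      (one_div_pos.2 (mul_pos hl (hp.pos _ (hH1 t)))).ne' (Eventually.of_forall fun s => hH2 s)
    simpa using h1
  · intro t ht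
    have hlc : 0 < e.l * e.c := mul_pos hl hp.cpos
    have hm : 1 / 2 + e.l * e.c * t ∈ Icc (1 / 4 : ℝ) (3 / 4) := by
      have h1 : |e.l * e.c * t| ≤ 1 / 4 := by
        rw [abs_mul, abs_of_pos hlc, mul_comm]
        exact ht
      rw [abs_le] at h1
      constructor <;> linarith [h1.1, h1.2]
    have hm' : 1 / 2 + e.l * e.c * t ∈ Ioo (0 : ℝ) 1 := ⟨by linarith [hm.1], by linarith [hm.2]⟩
    apply (Pool.Agent.Helper6K9.EH.HomL.mono hl hp).injOn (hH1 _) hm'
    rw [hH2, plat hl hp hm, eq_div_iff hlc.ne']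
    ring
  · have h1 : IsGLB (range H) 0 := by rw [hrange]; exact isGLB_Ioo (by norm_num)
    exact tendsto_atBot_isGLB hmono.monotone h1
  · have h1 : IsLUB (range H) 1 := by rw [hrange]; exact isLUB_Ioo (by norm_num)
    exact tendsto_atTop_isLUB hmono.monotone h1

end Pool.Agent.Helper69.EK
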